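import Mathlib

/-!
Integer data of the counterexample for `MP_e03363_an` (div-curl convex hull), and the finite
list of integer identities and inequalities that it satisfies.
`lf` : the 16 leaves `X_A`, `nd` : the 16 interior nodes, `en` : the 16 end points of the 8 lines.
-/

set_option autoImplicit false

namespace Pool.Agent.H49.DC

def cC : Fin 6 → ℤ := ![3521606, -220779, 2997686, -209274, -1375295, -1375295]

def lf : Fin 16 → Fin 6 → Fin 2 → ℤ := ![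
    ![![-31, -43], ![108, 124], ![25, -5], ![-100, 60], ![28, 4], ![32, 56]],
    ![![-31, -43], ![-108, -124], ![25, -5], ![100, -60], ![-28, -4], ![-32, -56]],
    ![![43, -31], ![-124, 108], ![-5, -25], ![60, 100], ![56, -32], ![-4, 28]],
    ![![43, -31], ![124, -108], ![-5, -25], ![-60, -100], ![-56, 32], ![4, -28]],
    ![![31, 43], ![-108, -124], ![-25, 5], ![100, -60], ![28, 4], ![32, 56]],
    ![![31, 43], ![108, 124], ![-25, 5], ![-100, 60], ![-28, -4], ![-32, -56]],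
    ![![-43, 31], ![124, -108], ![5, 25], ![-60, -100], ![56, -32], ![-4, 28]],
    ![![-43, 31], ![-124, 108], ![5, 25], ![60, 100], ![-56, 32], ![4, -28]],
    ![![-22, -62], ![-73, 87], ![26, 16], ![99, 139], ![-41, -85], ![-8, 20]],
    ![![-22, -62], ![73, -87], ![26, 16], ![-99, -139], ![41, 85], ![8, -20]],
    ![![62, -22], ![-87, -73], ![16, -26], ![139, -99], ![20, 8], ![85, -41]],
    ![![62, -22], ![87, 73], ![16, -26], ![-139, 99], ![-20, -8], ![-85, 41]],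
    ![![22, 62], ![73, -87], ![-26, -16], ![-99, -139], ![-41, -85], ![-8, 20]],
    ![![22, 62], ![-73, 87], ![-26, -16], ![99, 139], ![41, 85], ![8, -20]],
    ![![-62, 22], ![87, 73], ![-16, 26], ![-139, 99], ![20, 8], ![85, -41]],
    ![![-62, 22], ![-87, -73], ![-16, 26], ![139, -99], ![-20, -8], ![-85, 41]]]

def nd : Fin 16 → Fin 6 → Fin 2 → ℤ := ![
    ![![41, -7], ![12, 76], ![1, -17], ![-52, 84], ![4, -8], ![-40, 20]],
    ![![41, -7], ![-12, -76], ![1, -17], ![52, -84], ![-4, 8], ![40, -20]],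
    ![![7, 41], ![-76, 12], ![-17, -1], ![84, 52], ![20, 40], ![8, 4]],
    ![![7, 41], ![76, -12], ![-17, -1], ![-84, -52], ![-20, -40], ![-8, -4]],
    ![![-41, 7], ![-12, -76], ![-1, 17], ![52, -84], ![4, -8], ![-40, 20]],
    ![![-41, 7], ![12, 76], ![-1, 17], ![-52, 84], ![-4, 8], ![40, -20]],
    ![![-7, -41], ![76, -12], ![17, 1], ![-84, -52], ![20, 40], ![8, 4]],
    ![![-7, -41], ![-76, 12], ![17, 1], ![84, 52], ![-20, -40], ![-8, -4]],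
    ![![33, -7], ![-84, 76], ![-7, -17], ![44, 84], ![36, -8], ![-8, 20]],
    ![![33, -7], ![84, -76], ![-7, -17], ![-44, -84], ![-36, 8], ![8, -20]],
    ![![7, 33], ![-76, -84], ![-17, 7], ![84, -44], ![20, 8], ![8, 36]],
    ![![7, 33], ![76, 84], ![-17, 7], ![-84, 44], ![-20, -8], ![-8, -36]],
    ![![-33, 7], ![84, -76], ![7, 17], ![-44, -84], ![36, -8], ![-8, 20]],
    ![![-33, 7], ![-84, 76], ![7, 17], ![44, 84], ![-36, 8], ![8, -20]],
    ![![-7, -33], ![76, 84], ![17, -7], ![-84, 44], ![20, 8], ![8, 36]],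
    ![![-7, -33], ![-76, -84], ![17, -7], ![84, -44], ![-20, -8], ![-8, -36]]]

def en : Fin 16 → Fin 6 → Fin 2 → ℤ := ![
    ![![31, -7], ![-108, 76], ![-9, -17], ![68, 84], ![44, -8], ![0, 20]],
    ![![31, -7], ![108, -76], ![-9, -17], ![-68, -84], ![-44, 8], ![0, -20]],
    ![![7, 31], ![-76, -108], ![-17, 9], ![84, -68], ![20, 0], ![8, 44]],
    ![![7, 31], ![76, 108], ![-17, 9], ![-84, 68], ![-20, 0], ![-8, -44]],
    ![![-31, 7], ![108, -76], ![9, 17], ![-68, -84], ![44, -8], ![0, 20]],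
    ![![-31, 7], ![-108, 76], ![9, 17], ![68, 84], ![-44, 8], ![0, -20]],
    ![![-7, -31], ![76, 108], ![17, -9], ![-84, 68], ![20, 0], ![8, 44]],
    ![![-7, -31], ![-76, -108], ![17, -9], ![84, -68], ![-20, 0], ![-8, -44]],
    ![![47, -7], ![84, 76], ![7, -17], ![-124, 84], ![-20, -8], ![-64, 20]],
    ![![47, -7], ![-84, -76], ![7, -17], ![124, -84], ![20, 8], ![64, -20]],
    ![![7, 47], ![-76, 84], ![-17, -7], ![84, 124], ![20, 64], ![8, -20]],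
    ![![7, 47], ![76, -84], ![-17, -7], ![-84, -124], ![-20, -64], ![-8, 20]],
    ![![-47, 7], ![-84, -76], ![-7, 17], ![124, -84], ![-20, -8], ![-64, 20]],
    ![![-47, 7], ![84, 76], ![-7, 17], ![-124, 84], ![20, 8], ![64, -20]],
    ![![-7, -47], ![76, -84], ![17, 7], ![-84, -124], ![20, 64], ![8, -20]],
    ![![-7, -47], ![-76, 84], ![17, 7], ![84, 124], ![-20, -64], ![-8, 20]]]

def dd : Fin 16 → Fin 6 → Fin 6 → ℤ := ![
    ![![0, -98, 0, -109, -600, -1], ![0, 0, 76, 0, -151, -46], ![0, 0, 0, -329, 591, 315], ![0, 0, 0, 0, 61, 33], ![0, 0, 0, 0, 0, 2], ![0, 0, 0, 0, 0, 0]],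
    ![![0, 98, 0, 109, 600, 1], ![0, 0, -76, 0, -151, -46], ![0, 0, 0, 329, -591, -315], ![0, 0, 0, 0, 61, 33], ![0, 0, 0, 0, 0, 2], ![0, 0, 0, 0, 0, 0]],
    ![![0, -98, 0, 109, 1, -600], ![0, 0, -76, 0, 46, -151], ![0, 0, 0, -329, 315, -591], ![0, 0, 0, 0, 33, -61], ![0, 0, 0, 0, 0, 2], ![0, 0, 0, 0, 0, 0]],
    ![![0, 98, 0, -109, -1, 600], ![0, 0, 76, 0, 46, -151], ![0, 0, 0, 329, -315, 591], ![0, 0, 0, 0, 33, -61], ![0, 0, 0, 0, 0, 2], ![0, 0, 0, 0, 0, 0]],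
    ![![0, -98, 0, -109, 600, 1], ![0, 0, 76, 0, 151, 46], ![0, 0, 0, -329, -591, -315], ![0, 0, 0, 0, -61, -33], ![0, 0, 0, 0, 0, 2], ![0, 0, 0, 0, 0, 0]],
    ![![0, 98, 0, 109, -600, -1], ![0, 0, -76, 0, 151, 46], ![0, 0, 0, 329, 591, 315], ![0, 0, 0, 0, -61, -33], ![0, 0, 0, 0, 0, 2], ![0, 0, 0, 0, 0, 0]],
    ![![0, -98, 0, 109, -1, 600], ![0, 0, -76, 0, -46, 151], ![0, 0, 0, -329, -315, 591], ![0, 0, 0, 0, -33, 61], ![0, 0, 0, 0, 0, 2], ![0, 0, 0, 0, 0, 0]],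
    ![![0, 98, 0, -109, 1, -600], ![0, 0, 76, 0, -46, 151], ![0, 0, 0, 329, 315, -591], ![0, 0, 0, 0, -33, 61], ![0, 0, 0, 0, 0, 2], ![0, 0, 0, 0, 0, 0]],
    ![![0, 132, 0, 64, -236, 212], ![0, 0, -540, 0, -52, -180], ![0, 0, 0, -600, 160, 428], ![0, 0, 0, 0, 204, 292], ![0, 0, 0, 0, 0, 0], ![0, 0, 0, 0, 0, 0]],
    ![![0, -132, 0, -64, 236, -212], ![0, 0, 540, 0, -52, -180], ![0, 0, 0, 600, -160, -428], ![0, 0, 0, 0, 204, 292], ![0, 0, 0, 0, 0, 0], ![0, 0, 0, 0, 0, 0]],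
    ![![0, 132, 0, -64, -212, -236], ![0, 0, 540, 0, 180, -52], ![0, 0, 0, -600, 428, -160], ![0, 0, 0, 0, 292, -204], ![0, 0, 0, 0, 0, 0], ![0, 0, 0, 0, 0, 0]],
    ![![0, -132, 0, 64, 212, 236], ![0, 0, -540, 0, 180, -52], ![0, 0, 0, 600, -428, 160], ![0, 0, 0, 0, 292, -204], ![0, 0, 0, 0, 0, 0], ![0, 0, 0, 0, 0, 0]],
    ![![0, 132, 0, 64, 236, -212], ![0, 0, -540, 0, 52, 180], ![0, 0, 0, -600, -160, -428], ![0, 0, 0, 0, -204, -292], ![0, 0, 0, 0, 0, 0], ![0, 0, 0, 0, 0, 0]],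
    ![![0, -132, 0, -64, -236, 212], ![0, 0, 540, 0, 52, 180], ![0, 0, 0, 600, 160, 428], ![0, 0, 0, 0, -204, -292], ![0, 0, 0, 0, 0, 0], ![0, 0, 0, 0, 0, 0]],
    ![![0, 132, 0, -64, 212, 236], ![0, 0, 540, 0, -180, 52], ![0, 0, 0, -600, -428, 160], ![0, 0, 0, 0, -292, 204], ![0, 0, 0, 0, 0, 0], ![0, 0, 0, 0, 0, 0]],
    ![![0, -132, 0, 64, -212, -236], ![0, 0, -540, 0, -180, 52], ![0, 0, 0, 600, 428, -160], ![0, 0, 0, 0, -292, 204], ![0, 0, 0, 0, 0, 0], ![0, 0, 0, 0, 0, 0]]]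

def rI : Fin 16 → Fin 16 := ![0, 1, 2, 3, 4, 5, 6, 7, 0, 1, 2, 3, 4, 5, 6, 7]

def qI : Fin 16 → Fin 16 := ![8, 9, 10, 11, 12, 13, 14, 15, 8, 9, 10, 11, 12, 13, 14, 15]

def wr : Fin 16 → ℤ := ![3, 3, 3, 3, 3, 3, 3, 3, 7, 7, 7, 7, 7, 7, 7, 7]

def wq : Fin 16 → ℤ := ![5, 5, 5, 5, 5, 5, 5, 5, 1, 1, 1, 1, 1, 1, 1, 1]

def be : Fin 16 → Fin 6 → ℤ := ![
    ![16, 192, 16, -192, -64, -64],
    ![16, -192, 16, 192, 64, 64],
    ![16, 192, -16, 192, 64, -64],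
    ![16, -192, -16, -192, -64, 64],
    ![16, 192, 16, -192, 64, 64],
    ![16, -192, 16, 192, -64, -64],
    ![16, 192, -16, 192, -64, 64],
    ![16, -192, -16, -192, 64, -64],
    ![16, 192, 16, -192, -64, -64],
    ![16, -192, 16, 192, 64, 64],
    ![16, 192, -16, 192, 64, -64],
    ![16, -192, -16, -192, -64, 64],
    ![16, 192, 16, -192, 64, 64],
    ![16, -192, 16, 192, -64, -64],
    ![16, 192, -16, 192, -64, 64],
    ![16, -192, -16, -192, 64, -64]]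

def ze : Fin 16 → Fin 2 → ℤ := ![![1, 0], ![1, 0], ![0, 1], ![0, 1], ![-1, 0], ![-1, 0], ![0, -1], ![0, -1], ![1, 0], ![1, 0], ![0, 1], ![0, 1], ![-1, 0], ![-1, 0], ![0, -1], ![0, -1]]

def st : Fin 16 → Fin 16 := ![2, 3, 4, 5, 6, 7, 0, 1, 11, 10, 13, 12, 15, 14, 9, 8]

def nu : Fin 16 → ℤ := ![2, 2, 2, 2, 2, 2, 2, 2, 8, 8, 8, 8, 8, 8, 8, 8]

def de : Fin 16 → ℤ := ![3, 3, 3, 3, 3, 3, 3, 3, 11, 11, 11, 11, 11, 11, 11, 11]

def aa : Fin 16 → Fin 6 → ℤ := ![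
    ![-36, 48, 12, -24, 12, 36],
    ![-36, -48, 12, 24, -12, -36],
    ![-36, 48, -12, 24, -36, 12],
    ![-36, -48, -12, -24, 36, -12],
    ![-36, 48, 12, -24, -12, -36],
    ![-36, -48, 12, 24, 12, 36],
    ![-36, 48, -12, 24, 36, -12],
    ![-36, -48, -12, -24, -36, 12],
    ![-55, 11, 33, 55, -77, 0],
    ![-55, -11, 33, -55, 77, 0],
    ![-55, 11, -33, -55, 0, -77],
    ![-55, -11, -33, 55, 0, 77],
    ![-55, 11, 33, 55, 77, 0],
    ![-55, -11, 33, -55, -77, 0],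
    ![-55, 11, -33, -55, 0, 77],
    ![-55, -11, -33, 55, 0, -77]]

def xx : Fin 16 → Fin 2 → ℤ := ![![2, 1], ![2, 1], ![-1, 2], ![-1, 2], ![-2, -1], ![-2, -1], ![1, -2], ![1, -2], ![1, 1], ![1, 1], ![-1, 1], ![-1, 1], ![-1, -1], ![-1, -1], ![1, -1], ![1, -1]]

/-- each node lies on the line between two end points -/
theorem node_line : ∀ j : Fin 16, ∀ i : Fin 6, ∀ k : Fin 2,
    8 * nd j i k = wr j * en (rI j) i k + wq j * en (qI j) i k := by decide +kernel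

theorem w_pos : ∀ j : Fin 16, 0 ≤ wr j ∧ 0 ≤ wq j ∧ wr j + wq j = 8 := by decide +kernel

/-- the lines are rank one -/
theorem line_rank : ∀ j : Fin 16, ∀ i : Fin 6, ∀ k : Fin 2,
    en (qI j) i k - en (rI j) i k = be j i * ze j k := by decide +kernel

theorem ze_ne : ∀ j : Fin 16, ze j 0 ^ 2 + ze j 1 ^ 2 ≠ 0 := by decide +kernel

/-- each end point lies between a node and its leaf -/
theorem end_star : ∀ e : Fin 16, ∀ i : Fin 6, ∀ k : Fin 2,
    de e * en e i k = (de e - nu e) * nd (st e) i k + nu e * lf (st e) i k := by decide +kernel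

theorem nu_pos : ∀ e : Fin 16, 0 < nu e ∧ nu e < de e := by decide +kernel

/-- the segments from a node to its leaf are rank one -/
theorem star_rank : ∀ j : Fin 16, ∀ i : Fin 6, ∀ k : Fin 2,
    lf j i k - nd j i k = aa j i * xx j k := by decide +kernel

theorem xx_ne : ∀ j : Fin 16, xx j 0 ^ 2 + xx j 1 ^ 2 ≠ 0 := by decide +kernel

/-- the leaves are conformal for the indefinite form `cC` -/
theorem leaf_iso : ∀ A : Fin 16,
    (∑ i, lf A i 0 * (cC i * lf A i 1) = 0) ∧ (∑ i, lf A i 0 * (cC i * lf A i 0) = -1896622500) ∧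
    (∑ i, lf A i 1 * (cC i * lf A i 1) = -1896622500) := by decide +kernel

theorem node_not_iso : ∑ i, nd 0 i 0 * (cC i * nd 0 i 1) ≠ 0 := by decide +kernel

/-- strict polyconvexity of the data -/
theorem pc : ∀ A B : Fin 16, A ≠ B →
    (∑ i, cC i * (lf A i 1 * lf B i 0 - lf A i 0 * lf B i 1)) +
    50000 * (∑ i, ∑ j, dd A i j * ((lf B i 0 - lf A i 0) * (lf B j 1 - lf A j 1)
      - (lf B j 0 - lf A j 0) * (lf B i 1 - lf A i 1))) < 0 := by decide +kernel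

theorem dd_upper : ∀ A : Fin 16, ∀ i j : Fin 6, ¬ i < j → dd A i j = 0 := by decide +kernel

end Pool.Agent.H49.DC
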