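import Pool.Agent.H49.DCMain

set_option autoImplicit false

namespace Pool.Agent.H49.DC

open Set

/-- `Λ_dc`-convexity (for `n = 6`, `m = 2`) -/
def LConv (F : Mx × Mx × (Fin 2 → Fin 2 → ℝ) → ℝ) : Prop :=
  ∀ A' B : Mx × Mx × (Fin 2 → Fin 2 → ℝ),
        (∃ ξ : Fin 2 → ℝ, ∑ j, ξ j ^ 2 = 1 ∧
          (∀ i, ∑ j, B.2.1 i j * ξ j = 0) ∧
          (∀ a, ∑ j, B.2.2 a j * ξ j = 0) ∧
          ∃ u : Fin 6 → ℝ, ∀ i j, B.1 i j = u i * ξ j) →
        ConvexOn ℝ Set.univ (fun t : ℝ => F (A' + t • B))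

lemma step {F : Mx × Mx × (Fin 2 → Fin 2 → ℝ) → ℝ} (hF : LConv F) (κ : ℝ) (S T M : Mx) (w : ℝ)
    (hw0 : 0 ≤ w) (hw1 : w ≤ 1) (u : Fin 6 → ℝ) (ξ : Fin 2 → ℝ) (hξ : ξ 0 ^ 2 + ξ 1 ^ 2 ≠ 0)
    (hST : ∀ i j, S i j - T i j = u i * ξ j) (hM : ∀ i j, M i j = w * S i j + (1 - w) * T i j) :
    F (emb κ M) ≤ w * F (emb κ S) + (1 - w) * F (emb κ T) := by
  set n : ℝ := Real.sqrt (ξ 0 ^ 2 + ξ 1 ^ 2) with hn
  have hpos : 0 < ξ 0 ^ 2 + ξ 1 ^ 2 := lt_of_le_of_ne (by positivity) (Ne.symm hξ)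
  have hn0 : 0 < n := Real.sqrt_pos.mpr hpos
  have hn2 : n ^ 2 = ξ 0 ^ 2 + ξ 1 ^ 2 := Real.sq_sqrt hpos.le
  set B : Mx × Mx × (Fin 2 → Fin 2 → ℝ) := (fun i j => u i * ξ j, YY (fun i j => u i * ξ j), 0)
    with hB
  have hconv := hF (emb κ T) B ⟨fun j => ξ j / n, by
      rw [Fin.sum_univ_two, div_pow, div_pow, ← add_div, hn2, div_self hξ], by
      intro i
      rw [Fin.sum_univ_two]
      simp only [hB, YY]
      simp
      ring, by
      intro a
      simp [hB], fun i => n * u i, by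
      intro i j
      simp only [hB]
      field_simp⟩
  have h0 : emb κ T + (0 : ℝ) • B = emb κ T := by simp
  have h1 : emb κ T + (1 : ℝ) • B = emb κ S := by
    rw [one_smul]
    simp only [emb, hB]
    refine Prod.ext ?_ (Prod.ext ?_ ?_)
    · funext i j
      show T i j + u i * ξ j = S i j
      rw [← hST i j]; ring
    · funext i j
      show YY T i j + YY (fun i j => u i * ξ j) i j = YY S i j
      have e0 := hST i 0
      have e1 := hST i 1
      simp only [YY]
      split_ifs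
      · linear_combination (-(cC i : ℝ)) * e1
      · linear_combination (cC i : ℝ) * e0
    · show ZZ κ + 0 = ZZ κ
      rw [add_zero]
  have hw : emb κ T + w • B = emb κ M := by
    simp only [emb, hB]
    refine Prod.ext ?_ (Prod.ext ?_ ?_)
    · funext i j
      show T i j + w * (u i * ξ j) = M i j
      rw [← hST i j, hM i j]; ring
    · funext i j
      show YY T i j + w * YY (fun i j => u i * ξ j) i j = YY M i j
      have e0 := hST i 0
      have e1 := hST i 1
      simp only [YY]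
      split_ifs
      · linear_combination (-(cC i : ℝ) * w) * e1 - (cC i : ℝ) * hM i 1
      · linear_combination ((cC i : ℝ) * w) * e0 + (cC i : ℝ) * hM i 0
    · show ZZ κ + w • 0 = ZZ κ
      rw [smul_zero, add_zero]
  have h2 := hconv.2 (mem_univ (1 : ℝ)) (mem_univ (0 : ℝ)) hw0 (sub_nonneg.mpr hw1)
    (by ring : w + (1 - w) = 1)
  simp only [smul_eq_mul, mul_one, mul_zero, add_zero] at h2
  rw [h0, h1, hw] at h2
  exact h2

/-- the hull property -/
lemma hull {F : Mx × Mx × (Fin 2 → Fin 2 → ℝ) → ℝ} (hF : LConv F) (κ : ℝ)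
    (hL : ∀ A : Fin 16, F (emb κ (rl (lf A))) ≤ 0) (j : Fin 16) :
    F (emb κ (rl (nd j))) ≤ 0 := by
  obtain ⟨j0, hj0⟩ := Finite.exists_max (fun j : Fin 16 => F (emb κ (rl (nd j))))
  suffices h : F (emb κ (rl (nd j0))) ≤ 0 from (hj0 j).trans h
  by_contra hcon
  push Not at hcon
  set N := F (emb κ (rl (nd j0))) with hN
  -- end points
  have hE : ∀ e : Fin 16, F (emb κ (rl (en e))) < N := by
    intro e
    obtain ⟨h1, h2⟩ := nu_pos e
    have h1' : (0 : ℝ) < nu e := by exact_mod_cast h1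
    have h2' : (nu e : ℝ) < de e := by exact_mod_cast h2
    have hde : (0 : ℝ) < de e := h1'.trans h2'
    have hw0 : 0 ≤ (nu e : ℝ) / de e := by positivity
    have hw1 : (nu e : ℝ) / de e ≤ 1 := by rw [div_le_one hde]; exact h2'.le
    have h3 := step hF κ (rl (lf (st e))) (rl (nd (st e))) (rl (en e)) ((nu e : ℝ) / de e)
      hw0 hw1 (fun i => (aa (st e) i : ℝ)) (fun k => (xx (st e) k : ℝ))
      (by exact_mod_cast xx_ne (st e))
      (by intro i k; simp only [rl]; exact_mod_cast star_rank (st e) i k)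
      (by
        intro i k
        simp only [rl]
        have h4 : (de e : ℝ) * en e i k = (de e - nu e) * nd (st e) i k + nu e * lf (st e) i k := by
          exact_mod_cast end_star e i k
        have h5 : (en e i k : ℝ) = ((de e - nu e) * nd (st e) i k + nu e * lf (st e) i k) / de e := by
          rw [← h4]; field_simp
        rw [h5]
        field_simp
        ring)
    have h4 := hL (st e)
    have h5 := hj0 (st e)
    have h6 : 0 < (nu e : ℝ) / de e := by positivity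
    have h7 : (1 - (nu e : ℝ) / de e) * F (emb κ (rl (nd (st e)))) ≤ (1 - (nu e : ℝ) / de e) * N :=
      mul_le_mul_of_nonneg_left h5 (sub_nonneg.mpr hw1)
    have h8 : (nu e : ℝ) / de e * F (emb κ (rl (lf (st e)))) ≤ 0 :=
      mul_nonpos_of_nonneg_of_nonpos hw0 h4
    have h9 : 0 < (nu e : ℝ) / de e * N := by positivity
    linarith
  -- node
  obtain ⟨h1, h2, h3⟩ := w_pos j0
  have h1' : (0 : ℝ) ≤ wr j0 := by exact_mod_cast h1
  have h2' : (0 : ℝ) ≤ wq j0 := by exact_mod_cast h2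
  have h3' : (wr j0 : ℝ) + wq j0 = 8 := by exact_mod_cast h3
  have h4 := step hF κ (rl (en (qI j0))) (rl (en (rI j0))) (rl (nd j0)) ((wq j0 : ℝ) / 8)
    (by positivity) (by rw [div_le_one (by norm_num)]; linarith)
    (fun i => (be j0 i : ℝ)) (fun k => (ze j0 k : ℝ))
    (by exact_mod_cast ze_ne j0)
    (by intro i k; simp only [rl]; exact_mod_cast line_rank j0 i k)
    (by
      intro i k
      simp only [rl]
      have h5 : (8 : ℝ) * nd j0 i k = wr j0 * en (rI j0) i k + wq j0 * en (qI j0) i k := by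
        exact_mod_cast node_line j0 i k
      have h6 : (wr j0 : ℝ) = 8 - wq j0 := by linarith
      rw [h6] at h5
      linear_combination h5 / 8)
  have e1 := hE (qI j0)
  have e2 := hE (rI j0)
  rw [← hN] at h4
  have hq0 : 0 ≤ (wq j0 : ℝ) / 8 := by positivity
  have hq1 : 0 ≤ 1 - (wq j0 : ℝ) / 8 := by linarith
  rcases hq0.lt_or_eq with h | h
  · have m1 : (wq j0 : ℝ) / 8 * F (emb κ (rl (en (qI j0)))) < (wq j0 : ℝ) / 8 * N :=
      mul_lt_mul_of_pos_left e1 h
    have m2 : (1 - (wq j0 : ℝ) / 8) * F (emb κ (rl (en (rI j0)))) ≤ (1 - (wq j0 : ℝ) / 8) * N :=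
      mul_le_mul_of_nonneg_left e2.le hq1
    linarith
  · rw [← h] at h4
    linarith

lemma ZZ_leaf (κ : ℝ) (A : Fin 16) (a b : Fin 2) :
    ∑ i, rl (lf A) i a * YY (rl (lf A)) i b - κ * (if a = b then (1 : ℝ) else 0) = ZZ κ a b := by
  obtain ⟨h1, h2, h3⟩ := leaf_iso A
  have h1' : ∑ i, (lf A i 0 : ℝ) * (cC i * lf A i 1) = 0 := by exact_mod_cast h1
  have h2' : ∑ i, (lf A i 0 : ℝ) * (cC i * lf A i 0) = -1896622500 := by exact_mod_cast h2
  have h3' : ∑ i, (lf A i 1 : ℝ) * (cC i * lf A i 1) = -1896622500 := by exact_mod_cast h3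
  have h4 : ∑ i, (lf A i 1 : ℝ) * (cC i * lf A i 0) = 0 := by
    rw [← h1']
    refine Finset.sum_congr rfl fun i _ => ?_
    ring
  fin_cases a <;> fin_cases b <;> simp [YY, ZZ, rl, h1', h2', h3', h4]

end Pool.Agent.H49.DC
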