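import Mathlib

set_option autoImplicit false

namespace Pool.Agent.H49.DC

open Set

/-- The `C^1` convex function `t ↦ (max t 0)^2`. -/
noncomputable def psq (t : ℝ) : ℝ := (max t 0) ^ 2

lemma psq_of_nonpos {t : ℝ} (h : t ≤ 0) : psq t = 0 := by
  simp [psq, max_eq_right h]

lemma psq_of_nonneg {t : ℝ} (h : 0 ≤ t) : psq t = t ^ 2 := by
  simp [psq, max_eq_left h]

lemma psq_hasDerivAt (t : ℝ) : HasDerivAt psq (2 * max t 0) t := by
  rcases lt_trichotomy t 0 with h | h | h
  · have h1 : psq =ᶠ[nhds t] fun _ => (0 : ℝ) := by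
      filter_upwards [Iio_mem_nhds h] with s hs
      exact psq_of_nonpos (le_of_lt hs)
    rw [max_eq_right h.le, mul_zero]
    exact (hasDerivAt_const t (0 : ℝ)).congr_of_eventuallyEq h1
  · subst h
    rw [max_self, mul_zero, hasDerivAt_iff_isLittleO]
    have h0 : psq 0 = 0 := psq_of_nonpos le_rfl
    simp only [h0, sub_zero, smul_zero]
    rw [Asymptotics.isLittleO_iff]
    intro c hc
    filter_upwards [Metric.ball_mem_nhds (0 : ℝ) hc] with s hs
    rw [Metric.mem_ball, dist_zero_right, Real.norm_eq_abs] at hs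
    rw [Real.norm_eq_abs, Real.norm_eq_abs]
    have h1 : |psq s| ≤ |s| * |s| := by
      unfold psq
      rw [abs_of_nonneg (by positivity), pow_two]
      have h2 : max s 0 ≤ |s| := max_le (le_abs_self s) (abs_nonneg s)
      have h3 : 0 ≤ max s 0 := le_max_right _ _
      exact mul_le_mul h2 h2 h3 (abs_nonneg s)
    calc |psq s| ≤ |s| * |s| := h1
      _ ≤ c * |s| := mul_le_mul_of_nonneg_right hs.le (abs_nonneg s)
  · have h1 : psq =ᶠ[nhds t] fun s => s ^ 2 := by
      filter_upwards [Ioi_mem_nhds h] with s hs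
      exact psq_of_nonneg (le_of_lt hs)
    rw [max_eq_left h.le]
    have h2 : HasDerivAt (fun s : ℝ => s ^ 2) (2 * t) t := by
      simpa using hasDerivAt_pow 2 t
    exact h2.congr_of_eventuallyEq h1

lemma psq_contDiff : ContDiff ℝ 1 psq := by
  rw [contDiff_one_iff_deriv]
  refine ⟨fun t => (psq_hasDerivAt t).differentiableAt, ?_⟩
  have : deriv psq = fun t => 2 * max t 0 := by
    funext t
    exact (psq_hasDerivAt t).deriv
  rw [this]
  fun_prop

lemma psq_convex : ConvexOn ℝ univ psq := by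
  have h1 : ConvexOn ℝ univ (fun t : ℝ => max t 0) :=
    (convexOn_id convex_univ).sup (convexOn_const 0 convex_univ)
  exact h1.pow (fun t _ => le_max_right _ _) 2

variable {ι : Type*} [Fintype ι]

/-- sum of squares -/
noncomputable def qd (φ : ι → ℝ) : ℝ := ∑ i, φ i ^ 2

/-- dot product functional -/
noncomputable def dotL (a : ι → ℝ) : (ι → ℝ) →L[ℝ] ℝ :=
  ∑ i, a i • (ContinuousLinearMap.proj i : (ι → ℝ) →L[ℝ] ℝ)

lemma dotL_apply (a φ : ι → ℝ) : dotL a φ = ∑ i, a i * φ i := by
  simp [dotL]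

lemma qd_hasFDerivAt (φ : ι → ℝ) : HasFDerivAt (qd (ι := ι)) ((2 : ℝ) • dotL φ) φ := by
  have h : ∀ i ∈ (Finset.univ : Finset ι), HasFDerivAt (fun ψ : ι → ℝ => ψ i ^ 2)
      ((2 * φ i) • (ContinuousLinearMap.proj i : (ι → ℝ) →L[ℝ] ℝ)) φ := by
    intro i _
    have h1 : HasFDerivAt (fun ψ : ι → ℝ => ψ i) (ContinuousLinearMap.proj i : (ι → ℝ) →L[ℝ] ℝ) φ :=
      (ContinuousLinearMap.proj (R := ℝ) (φ := fun _ : ι => ℝ) i).hasFDerivAt
    have h2 := h1.pow 2
    simpa using h2
  have h3 := HasFDerivAt.fun_sum h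
  have h4 : (∑ i, (2 * φ i) • (ContinuousLinearMap.proj i : (ι → ℝ) →L[ℝ] ℝ)) = (2 : ℝ) • dotL φ := by
    unfold dotL
    rw [Finset.smul_sum]
    refine Finset.sum_congr rfl fun i _ => ?_
    rw [smul_smul]
  rw [← h4]
  exact h3

lemma qd_contDiff : ContDiff ℝ 1 (qd (ι := ι)) := by
  unfold qd
  fun_prop

lemma qd_strict {ε : ℝ} (hε : 0 < ε) : StrictConvexOn ℝ univ (fun φ : ι → ℝ => ε * qd φ) := by
  refine ⟨convex_univ, ?_⟩
  intro x _ y _ hxy a b ha hb hab
  simp only [smul_eq_mul]
  have hb' : b = 1 - a := by linarith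
  have key : a * (ε * qd x) + b * (ε * qd y) - ε * qd (a • x + b • y) =
      ε * (a * b) * ∑ i, (x i - y i) ^ 2 := by
    unfold qd
    simp only [Finset.mul_sum, ← Finset.sum_add_distrib, ← Finset.sum_sub_distrib]
    refine Finset.sum_congr rfl fun i _ => ?_
    simp only [Pi.add_apply, Pi.smul_apply, smul_eq_mul]
    subst hb'
    ring
  have hpos : 0 < ∑ i, (x i - y i) ^ 2 := by
    have hne : ∃ i, x i ≠ y i := by
      by_contra hcon
      push Not at hcon
      exact hxy (funext hcon)
    obtain ⟨i, hi⟩ := hne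
    have h1 : 0 < (x i - y i) ^ 2 := by
      have : x i - y i ≠ 0 := sub_ne_zero.mpr hi
      positivity
    exact lt_of_lt_of_le h1 (Finset.single_le_sum (f := fun i => (x i - y i) ^ 2)
      (fun j _ => sq_nonneg _) (Finset.mem_univ i))
  have : 0 < ε * (a * b) * ∑ i, (x i - y i) ^ 2 := by positivity
  linarith

/-- Interpolation: finitely many points, each strictly separated from all the others by a
prescribed linear functional, are critical data of a `C^1` strictly convex function which takes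
the same value at all of them and has the prescribed differentials. -/
theorem interp {S : Type*} [Fintype S] (φ : S → ι → ℝ) (l : S → (ι → ℝ) →L[ℝ] ℝ)
    (h : ∀ A B, A ≠ B → l A (φ B - φ A) < 0) :
    ∃ κ : ℝ, ∃ g : (ι → ℝ) → ℝ, StrictConvexOn ℝ univ g ∧ ContDiff ℝ 1 g ∧
      ∀ A, g (φ A) = κ ∧ HasFDerivAt g (l A) (φ A) := by
  classical
  -- choose κ
  obtain ⟨κ, hκ, hκ'⟩ : ∃ κ : ℝ, 0 < κ ∧ ∀ A B, A ≠ B → 2 * κ + l A (φ B - φ A) < 0 := by
    have h1 : ∀ A B : S, ∀ᶠ κ in nhdsWithin (0 : ℝ) (Ioi 0), A ≠ B → 2 * κ + l A (φ B - φ A) < 0 := by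
      intro A B
      by_cases hAB : A = B
      · exact Filter.Eventually.of_forall fun κ hne => absurd hAB hne
      · have hc : Continuous fun κ : ℝ => 2 * κ + l A (φ B - φ A) := by fun_prop
        have h2 : ∀ᶠ κ in nhds (0 : ℝ), 2 * κ + l A (φ B - φ A) < 0 := by
          apply hc.continuousAt.eventually_lt continuousAt_const
          simpa using h A B hAB
        exact (h2.filter_mono nhdsWithin_le_nhds).mono fun κ hk _ => hk
    have h2 : ∀ᶠ κ in nhdsWithin (0 : ℝ) (Ioi 0), ∀ A B, A ≠ B → 2 * κ + l A (φ B - φ A) < 0 := by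
      rw [Filter.eventually_all]
      intro A
      rw [Filter.eventually_all]
      intro B
      exact h1 A B
    obtain ⟨κ, hκ1, hκ2⟩ := (h2.and self_mem_nhdsWithin).exists
    exact ⟨κ, hκ2, hκ1⟩
  -- choose ε
  obtain ⟨ε, hε, hε1, hε2⟩ : ∃ ε : ℝ, 0 < ε ∧ (∀ A, 0 < κ - ε * qd (φ A)) ∧
      ∀ A B, A ≠ B → 2 * (κ - ε * qd (φ A)) + (l A (φ B - φ A)
        - ε * (2 * dotL (φ A) (φ B - φ A))) ≤ 0 := by
    have h1 : ∀ A : S, ∀ᶠ ε in nhdsWithin (0 : ℝ) (Ioi 0), 0 < κ - ε * qd (φ A) := by
      intro A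
      have hc : Continuous fun ε : ℝ => κ - ε * qd (φ A) := by fun_prop
      have h2 : ∀ᶠ ε in nhds (0 : ℝ), 0 < κ - ε * qd (φ A) := by
        apply continuousAt_const.eventually_lt hc.continuousAt
        simpa using hκ
      exact h2.filter_mono nhdsWithin_le_nhds
    have h3 : ∀ A B : S, ∀ᶠ ε in nhdsWithin (0 : ℝ) (Ioi 0), A ≠ B →
        2 * (κ - ε * qd (φ A)) + (l A (φ B - φ A) - ε * (2 * dotL (φ A) (φ B - φ A))) ≤ 0 := by
      intro A B
      by_cases hAB : A = B
      · exact Filter.Eventually.of_forall fun κ hne => absurd hAB hne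
      · have hc : Continuous fun ε : ℝ => 2 * (κ - ε * qd (φ A)) + (l A (φ B - φ A)
            - ε * (2 * dotL (φ A) (φ B - φ A))) := by fun_prop
        have h2 : ∀ᶠ ε in nhds (0 : ℝ), 2 * (κ - ε * qd (φ A)) + (l A (φ B - φ A)
            - ε * (2 * dotL (φ A) (φ B - φ A))) < 0 := by
          apply hc.continuousAt.eventually_lt continuousAt_const
          simpa using hκ' A B hAB
        exact (h2.filter_mono nhdsWithin_le_nhds).mono fun κ hk _ => hk.le
    have h4 : ∀ᶠ ε in nhdsWithin (0 : ℝ) (Ioi 0), (∀ A, 0 < κ - ε * qd (φ A)) ∧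
        ∀ A B, A ≠ B → 2 * (κ - ε * qd (φ A)) + (l A (φ B - φ A)
        - ε * (2 * dotL (φ A) (φ B - φ A))) ≤ 0 := by
      refine Filter.Eventually.and ?_ ?_
      · rw [Filter.eventually_all]
        exact h1
      · rw [Filter.eventually_all]
        intro A
        rw [Filter.eventually_all]
        exact h3 A
    obtain ⟨ε, ⟨ha, hb⟩, hc⟩ := (h4.and self_mem_nhdsWithin).exists
    exact ⟨ε, hc, ha, hb⟩
  -- the pieces
  set c : S → ℝ := fun A => κ - ε * qd (φ A) with hc
  set m : S → (ι → ℝ) →L[ℝ] ℝ := fun A => (1 / (2 * c A)) • (l A - (2 * ε) • dotL (φ A)) with hm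
  set L : S → (ι → ℝ) → ℝ := fun A ψ => 1 + m A (ψ - φ A) with hL
  have hcpos : ∀ A, 0 < c A := hε1
  have hLself : ∀ A, L A (φ A) = 1 := by intro A; simp [hL]
  have hLother : ∀ A B, A ≠ B → L A (φ B) ≤ 0 := by
    intro A B hAB
    have h1 := hε2 A B hAB
    have h2 : L A (φ B) = (2 * c A + (l A (φ B - φ A) - ε * (2 * dotL (φ A) (φ B - φ A)))) / (2 * c A) := by
      have := (hcpos A).ne'
      simp only [hL, hm, smul_apply, sub_apply, smul_eq_mul]
      field_simp
    rw [h2]
    exact div_nonpos_of_nonpos_of_nonneg h1 (by have := hcpos A; positivity)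
  have hLder : ∀ A ψ, HasFDerivAt (L A) (m A) ψ := by
    intro A ψ
    have h1 : HasFDerivAt (fun ψ : ι → ℝ => m A (ψ - φ A)) (m A) ψ := by
      have h2 : HasFDerivAt (fun ψ : ι → ℝ => ψ - φ A) (ContinuousLinearMap.id ℝ (ι → ℝ)) ψ :=
        (hasFDerivAt_id ψ).sub_const (φ A)
      have h3 := ((m A).hasFDerivAt (x := ψ - φ A)).comp ψ h2
      rw [ContinuousLinearMap.comp_id] at h3
      exact h3
    exact h1.const_add 1
  refine ⟨κ, fun ψ => ε * qd ψ + ∑ A, c A * psq (L A ψ), ?_, ?_, ?_⟩
  · -- strict convexity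
    refine (qd_strict hε).add_convexOn ?_
    have h1 : ∀ A, ConvexOn ℝ univ (fun ψ : ι → ℝ => c A * psq (L A ψ)) := by
      intro A
      have h2 : ConvexOn ℝ univ (fun ψ : ι → ℝ => psq (L A ψ)) := by
        refine ⟨convex_univ, ?_⟩
        intro x _ y _ a b ha hb hab
        have h3 : L A (a • x + b • y) = a • L A x + b • L A y := by
          simp only [hL, map_sub, map_add, map_smul, smul_eq_mul]
          have hb' : b = 1 - a := by linarith
          subst hb'
          ring
        simp only [h3]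
        exact psq_convex.2 (mem_univ _) (mem_univ _) ha hb hab
      have h4 := h2.smul (hcpos A).le
      simpa [smul_eq_mul] using h4
    have h5 : ∀ s : Finset S, ConvexOn ℝ univ (fun ψ : ι → ℝ => ∑ A ∈ s, c A * psq (L A ψ)) := by
      intro s
      induction s using Finset.induction_on with
      | empty => simpa using convexOn_const (0 : ℝ) (convex_univ (𝕜 := ℝ) (E := ι → ℝ))
      | insert A s hA ih =>
        have : (fun ψ : ι → ℝ => ∑ B ∈ insert A s, c B * psq (L B ψ)) =
            (fun ψ => c A * psq (L A ψ)) + fun ψ => ∑ B ∈ s, c B * psq (L B ψ) := by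
          funext ψ
          rw [Finset.sum_insert hA]
          rfl
        rw [this]
        exact (h1 A).add ih
    exact h5 Finset.univ
  · -- C^1
    have h1 : ∀ A, ContDiff ℝ 1 (L A) := by
      intro A
      have : ContDiff ℝ 1 (fun ψ : ι → ℝ => 1 + m A (ψ - φ A)) :=
        contDiff_const.add ((m A).contDiff.comp (contDiff_id.sub contDiff_const))
      exact this
    refine (contDiff_const.mul qd_contDiff).add ?_
    refine ContDiff.sum fun A _ => ?_
    exact contDiff_const.mul (psq_contDiff.comp (h1 A))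
  · intro A
    have hval : ∀ B, B ≠ A → psq (L B (φ A)) = 0 := fun B hB => psq_of_nonpos (hLother B A hB)
    constructor
    · have h1 : ∑ B, c B * psq (L B (φ A)) = c A := by
        rw [Finset.sum_eq_single A]
        · rw [hLself, psq_of_nonneg zero_le_one]; ring
        · intro B _ hB
          rw [hval B hB, mul_zero]
        · intro h; exact absurd (Finset.mem_univ A) h
      show ε * qd (φ A) + ∑ B, c B * psq (L B (φ A)) = κ
      rw [h1]
      simp only [hc]
      ring
    · have h1 : ∀ B ∈ (Finset.univ : Finset S), HasFDerivAt (fun ψ : ι → ℝ => c B * psq (L B ψ))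
          ((c B * (2 * max (L B (φ A)) 0)) • m B) (φ A) := by
        intro B _
        have h2 := (psq_hasDerivAt (L B (φ A))).comp_hasFDerivAt (φ A) (hLder B (φ A))
        have h3 := h2.const_mul (c B)
        rw [smul_smul] at h3
        exact h3
      have h2 := HasFDerivAt.fun_sum h1
      have h3 := ((qd_hasFDerivAt (φ A)).const_mul ε).add h2
      have h4 : ε • ((2 : ℝ) • dotL (φ A)) + ∑ B, (c B * (2 * max (L B (φ A)) 0)) • m B = l A := by
        rw [Finset.sum_eq_single A]
        · rw [hLself, max_eq_left zero_le_one]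
          have hcA := (hcpos A).ne'
          ext ψ
          simp only [hm, add_apply, smul_apply,
            sub_apply, smul_eq_mul]
          field_simp
          ring
        · intro B _ hB
          rw [max_eq_right (hLother B A hB)]
          simp
        · intro h; exact absurd (Finset.mem_univ A) h
      rw [h4] at h3
      exact h3

end Pool.Agent.H49.DC
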