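import Pool.Agent.H49.DCInterp
import Pool.Agent.H49.DCData

set_option autoImplicit false

namespace Pool.Agent.H49.DC

open Set

/-- `6 × 2` matrices -/
abbrev Mx := Fin 6 → Fin 2 → ℝ

/-- index type of all minors of a `6 × 2` matrix -/
abbrev Idx := Σ k : Fin (min 6 2),
        {r : Fin (k.1 + 1) → Fin 6 // StrictMono r} ×
        {c : Fin (k.1 + 1) → Fin 2 // StrictMono c}

/-- all minors -/
noncomputable def Phi (X : Mx) : Idx → ℝ :=
  fun p => Matrix.det ((Matrix.of X).submatrix p.2.1.1 p.2.2.1)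

lemma Phi_contDiff : ContDiff ℝ 1 Phi := by
  rw [contDiff_pi]
  intro p
  unfold Phi
  simp only [Matrix.det_apply]
  refine ContDiff.sum fun σ _ => ?_
  refine ContDiff.const_smul _ ?_
  refine contDiff_prod fun i _ => ?_
  simp only [Matrix.submatrix_apply, Matrix.of_apply]
  fun_prop

def ie (i : Fin 6) (j : Fin 2) : Idx :=
  ⟨⟨0, by decide⟩, ⟨fun _ => i, fun a b h => by
      exfalso
      have h1 : a.1 < b.1 := h
      have h2 : b.1 < 1 := b.2
      omega⟩, ⟨fun _ => j, fun a b h => by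
      exfalso
      have h1 : a.1 < b.1 := h
      have h2 : b.1 < 1 := b.2
      omega⟩⟩

def im (i j : Fin 6) (hij : i < j) : Idx :=
  ⟨⟨1, by decide⟩, ⟨fun k => if k.1 = 0 then i else j, fun a b h => by
      have h1 : a.1 < b.1 := h
      have h2 : b.1 < 2 := b.2
      have ha : a.1 = 0 := by omega
      have hb : b.1 ≠ 0 := by omega
      simpa [ha, hb] using hij⟩, ⟨fun k => if k.1 = 0 then 0 else 1, fun a b h => by
      have h1 : a.1 < b.1 := h
      have h2 : b.1 < 2 := b.2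
      have ha : a.1 = 0 := by omega
      have hb : b.1 ≠ 0 := by omega
      simp [ha, hb]⟩⟩

lemma Phi_ie (X : Mx) (i : Fin 6) (j : Fin 2) : Phi X (ie i j) = X i j := by
  calc Phi X (ie i j) = Matrix.det (Matrix.of (fun (_ : Fin 1) (_ : Fin 1) => X i j)) := rfl
    _ = X i j := by rw [Matrix.det_fin_one]; rfl

lemma Phi_im (X : Mx) (i j : Fin 6) (h : i < j) :
    Phi X (im i j h) = X i 0 * X j 1 - X j 0 * X i 1 := by
  calc Phi X (im i j h) = Matrix.det (Matrix.of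
        (fun (a b : Fin 2) => X (if a.1 = 0 then i else j) (if b.1 = 0 then 0 else 1))) := rfl
    _ = X i 0 * X j 1 - X i 1 * X j 0 := by
        rw [Matrix.det_fin_two]
        simp
    _ = _ := by ring

/-- coordinate functional -/
noncomputable def pr (p : Idx) : (Idx → ℝ) →L[ℝ] ℝ := ContinuousLinearMap.proj p

lemma pr_apply (p : Idx) (φ : Idx → ℝ) : pr p φ = φ p := rfl

/-- real version of the leaves, nodes, end points -/
def rl (M : Fin 6 → Fin 2 → ℤ) : Mx := fun i j => (M i j : ℝ)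

/-- the minor of `X - Z` with rows `i, j` -/
def mn (Z X : Mx) (i j : Fin 6) : ℝ :=
  (X i 0 - Z i 0) * (X j 1 - Z j 1) - (X j 0 - Z j 0) * (X i 1 - Z i 1)

/-- the piece of the functional belonging to the minor `i, j` -/
noncomputable def lam (Z : Mx) (i j : Fin 6) : (Idx → ℝ) →L[ℝ] ℝ :=
  (if h : i < j then pr (im i j h) else 0) - Z j 1 • pr (ie i 0) - Z i 0 • pr (ie j 1)
    + Z i 1 • pr (ie j 0) + Z j 0 • pr (ie i 1)

lemma lam_Phi (Z X : Mx) (i j : Fin 6) (h : i < j) :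
    lam Z i j (Phi X) = mn Z X i j - (Z i 0 * Z j 1 - Z j 0 * Z i 1) := by
  simp only [lam, h, dif_pos, add_apply, sub_apply, smul_apply, pr_apply, Phi_ie, Phi_im,
    smul_eq_mul, mn]
  ring

/-- the functional at leaf `A` -/
noncomputable def ell (A : Fin 16) : (Idx → ℝ) →L[ℝ] ℝ :=
  ∑ i, (cC i : ℝ) • ((lf A i 1 : ℝ) • pr (ie i 0) - (lf A i 0 : ℝ) • pr (ie i 1))
    + ∑ i, ∑ j, (50000 * (dd A i j : ℝ)) • lam (rl (lf A)) i j

/-- the affine function of the minors attached to leaf `A` -/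
noncomputable def HH (A : Fin 16) (X : Mx) : ℝ :=
  (∑ i, (cC i : ℝ) * ((lf A i 1 : ℝ) * X i 0 - (lf A i 0 : ℝ) * X i 1))
    + ∑ i, ∑ j, (50000 * (dd A i j : ℝ)) * mn (rl (lf A)) X i j

lemma ell_Phi (A : Fin 16) (X : Mx) :
    ell A (Phi X) = HH A X - ∑ i, ∑ j, (50000 * (dd A i j : ℝ)) *
      ((lf A i 0 : ℝ) * (lf A j 1 : ℝ) - (lf A j 0 : ℝ) * (lf A i 1 : ℝ)) := by
  have h1 : ∀ i j : Fin 6, (50000 * (dd A i j : ℝ)) * lam (rl (lf A)) i j (Phi X) =
      (50000 * (dd A i j : ℝ)) * mn (rl (lf A)) X i j - (50000 * (dd A i j : ℝ)) *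
      ((lf A i 0 : ℝ) * (lf A j 1 : ℝ) - (lf A j 0 : ℝ) * (lf A i 1 : ℝ)) := by
    intro i j
    by_cases h : i < j
    · rw [lam_Phi _ _ _ _ h]
      simp only [rl]
      ring
    · have h2 := dd_upper A i j h
      simp [h2]
  simp only [ell, add_apply, sum_apply, smul_apply, sub_apply, pr_apply,
    Phi_ie, smul_eq_mul, h1, Finset.sum_sub_distrib, HH]
  ring

lemma HH_self (A : Fin 16) : HH A (rl (lf A)) = 0 := by
  have h1 : ∀ i j, mn (rl (lf A)) (rl (lf A)) i j = 0 := by intro i j; simp [mn]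
  simp only [HH, h1, mul_zero, Finset.sum_const_zero, add_zero, rl]
  refine Finset.sum_eq_zero fun i _ => ?_
  ring

lemma ell_diff (A : Fin 16) (X : Mx) : ell A (Phi X - Phi (rl (lf A))) = HH A X := by
  rw [map_sub, ell_Phi, ell_Phi, HH_self]
  ring

lemma ell_neg (A B : Fin 16) (h : A ≠ B) : ell A (Phi (rl (lf B)) - Phi (rl (lf A))) < 0 := by
  rw [ell_diff]
  have h1 := pc A B h
  have h2 : HH A (rl (lf B)) = (((∑ i, cC i * (lf A i 1 * lf B i 0 - lf A i 0 * lf B i 1)) +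
    50000 * (∑ i, ∑ j, dd A i j * ((lf B i 0 - lf A i 0) * (lf B j 1 - lf A j 1)
      - (lf B j 0 - lf A j 0) * (lf B i 1 - lf A i 1))) : ℤ) : ℝ) := by
    simp only [HH, mn, rl]
    push_cast
    simp only [Finset.mul_sum, mul_assoc]
  rw [h2]
  exact_mod_cast h1

/-- differential of `HH A` at the leaf, along a line -/
lemma HH_line (A : Fin 16) (V : Mx) (t : ℝ) :
    HH A (rl (lf A) + t • V) = t * (∑ i, (cC i : ℝ) * ((lf A i 1 : ℝ) * V i 0 - (lf A i 0 : ℝ) * V i 1))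
      + t ^ 2 * ∑ i, ∑ j, (50000 * (dd A i j : ℝ)) * (V i 0 * V j 1 - V j 0 * V i 1) := by
  simp only [HH, mn, Pi.add_apply, Pi.smul_apply, smul_eq_mul, rl, Finset.mul_sum]
  congr 1
  · refine Finset.sum_congr rfl fun i _ => ?_
    ring
  · refine Finset.sum_congr rfl fun i _ => Finset.sum_congr rfl fun j _ => ?_
    ring

/-- derivative of `g ∘ Phi` at a leaf -/
lemma fderiv_leaf (A : Fin 16) (g : (Idx → ℝ) → ℝ) (hg : HasFDerivAt g (ell A) (Phi (rl (lf A))))
    (V : Mx) : fderiv ℝ (fun X : Mx => g (Phi X)) (rl (lf A)) V =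
      ∑ i, (cC i : ℝ) * ((lf A i 1 : ℝ) * V i 0 - (lf A i 0 : ℝ) * V i 1) := by
  set X0 := rl (lf A) with hX0
  have hPhi : DifferentiableAt ℝ Phi X0 := (Phi_contDiff.differentiable one_ne_zero) X0
  have h1 : HasFDerivAt (fun X : Mx => g (Phi X)) ((ell A).comp (fderiv ℝ Phi X0)) X0 :=
    hg.comp X0 hPhi.hasFDerivAt
  rw [h1.fderiv]
  -- line
  have hline : HasDerivAt (fun t : ℝ => X0 + t • V) V 0 := by
    have := ((hasDerivAt_id (0 : ℝ)).smul_const V).const_add X0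
    simpa using this
  have h2 : HasDerivAt (fun t : ℝ => Phi (X0 + t • V)) (fderiv ℝ Phi X0 V) 0 :=
    HasFDerivAt.comp_hasDerivAt_of_eq (0 : ℝ) hPhi.hasFDerivAt hline (by simp)
  have h3 : HasDerivAt (fun t : ℝ => ell A (Phi (X0 + t • V))) (ell A (fderiv ℝ Phi X0 V)) 0 :=
    (ell A).hasFDerivAt.comp_hasDerivAt (0 : ℝ) h2
  have h4 : (fun t : ℝ => ell A (Phi (X0 + t • V))) = fun t : ℝ => ell A (Phi X0) +
      (t * (∑ i, (cC i : ℝ) * ((lf A i 1 : ℝ) * V i 0 - (lf A i 0 : ℝ) * V i 1))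
      + t ^ 2 * ∑ i, ∑ j, (50000 * (dd A i j : ℝ)) * (V i 0 * V j 1 - V j 0 * V i 1)) := by
    funext t
    rw [← HH_line, ← ell_diff, map_sub]
    ring
  rw [h4] at h3
  set a := (∑ i, (cC i : ℝ) * ((lf A i 1 : ℝ) * V i 0 - (lf A i 0 : ℝ) * V i 1)) with ha
  set b := ∑ i, ∑ j, (50000 * (dd A i j : ℝ)) * (V i 0 * V j 1 - V j 0 * V i 1) with hb
  have h5 : HasDerivAt (fun t : ℝ => ell A (Phi X0) + (t * a + t ^ 2 * b)) a 0 := by
    have e1 : HasDerivAt (fun t : ℝ => t * a) a 0 := by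
      simpa using (hasDerivAt_id (0 : ℝ)).mul_const a
    have e2 : HasDerivAt (fun t : ℝ => t ^ 2 * b) 0 0 := by
      simpa using (hasDerivAt_pow 2 (0 : ℝ)).mul_const b
    have e3 := (e1.fun_add e2).const_add (ell A (Phi X0))
    simpa using e3
  exact h3.unique h5

/-- the matrix `C X J` -/
noncomputable def YY (X : Mx) : Mx := fun i j =>
  if j = 0 then (cC i : ℝ) * X i 1 else -((cC i : ℝ) * X i 0)

noncomputable def ZZ (κ : ℝ) : Fin 2 → Fin 2 → ℝ := fun a b =>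
  if a = b then -κ else if a = 0 then 1896622500 else -1896622500

noncomputable def emb (κ : ℝ) (X : Mx) : Mx × Mx × (Fin 2 → Fin 2 → ℝ) := (X, YY X, ZZ κ)

lemma fderiv_leaf_unit (A : Fin 16) (g : (Idx → ℝ) → ℝ)
    (hg : HasFDerivAt g (ell A) (Phi (rl (lf A)))) (i : Fin 6) (j : Fin 2) :
    fderiv ℝ (fun X : Mx => g (Phi X)) (rl (lf A))
      (fun a b => if a = i ∧ b = j then (1 : ℝ) else 0 : Fin 6 → Fin 2 → ℝ) =
      YY (rl (lf A)) i j := by
  rw [fderiv_leaf A g hg]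
  fin_cases j
  · simp only [YY, rl]
    rw [Finset.sum_eq_single i]
    · simp
    · intro k _ hk
      simp [hk]
    · intro h; exact absurd (Finset.mem_univ i) h
  · simp only [YY, rl]
    rw [Finset.sum_eq_single i]
    · simp
    · intro k _ hk
      simp [hk]
    · intro h; exact absurd (Finset.mem_univ i) h

end Pool.Agent.H49.DC
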